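import Mathlib
import Pool.Agent.Helper46.GlueForward

/-!
# The gluing closure of the numerical semigroups of maximal embedding dimension

The minimal generators of a numerical semigroup `S` are partitioned into blocks `A` with
`min A = |A| * gcd A`, and `delta S` is the largest value of the sum of the numbers
`binomial(|A| - 1, 2)` over the blocks of such a partition.  A presentation of `S` has at least
`e(S) - 1 + delta S` relations, and `S` lies in the gluing closure of the semigroups of maximal
embedding dimension if and only if `S` has a presentation with exactly `e(S) - 1 + delta S`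
relations.
-/

set_option autoImplicit false

namespace Pool.Agent.Results.MP_db6656_al.GluingClosure

open Pool.Agent.Helper46.Glue

theorem exists_finset {S : AddSubmonoid ℕ}
    (h : presNum S ≠ ⊤) : ∃ ρ : Finset (Multiset (minGens S) × Multiset (minGens S)),
      Gens (vh S) ρ ∧ (ρ.card : ℕ∞) = presNum S := by
  have h1 : ∃ ρ : Set (Multiset (minGens S) × Multiset (minGens S)),
      IsPresentation S ρ ∧ ρ.encard = presNum S := by
    have h2 := csInf_mem (α := ℕ∞) (s := {x | ∃ ρ, IsPresentation S ρ ∧ ρ.encard = x}) (by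
      refine ⟨_, {r | value S r.1 = value S r.2}, ?_, rfl⟩
      rw [isPresentation_iff]
      intro z z'
      constructor
      · intro h
        induction h with
        | refl => rfl
        | tail _ hs ih =>
          rw [ih]
          obtain ⟨a, b, c, hab, hs⟩ := hs
          have hv : vh S a = vh S b := hab
          rcases hs with ⟨rfl, rfl⟩ | ⟨rfl, rfl⟩
          · rw [map_add, map_add, hv]
          · rw [map_add, map_add, hv]
      · intro h
        exact Relation.ReflTransGen.single ⟨z, z', 0, h,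
          Or.inl ⟨by rw [zero_add], by rw [zero_add]⟩⟩)
    obtain ⟨ρ, hρ, hρ2⟩ := h2
    refine ⟨ρ, hρ, ?_⟩
    rw [hρ2]
    unfold presNum
    apply le_antisymm
    · refine le_iInf fun ρ' => le_iInf fun h' => ?_
      exact sInf_le ⟨ρ', h', rfl⟩
    · refine le_sInf ?_
      rintro _ ⟨ρ', h', rfl⟩
      exact iInf_le_of_le ρ' (iInf_le _ h')
  obtain ⟨ρ, hρ, hρ2⟩ := h1
  have hfin : ρ.Finite := by
    rw [← Set.encard_ne_top_iff, hρ2]
    exact h
  refine ⟨hfin.toFinset, ?_, ?_⟩
  · rw [Set.Finite.coe_toFinset]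
    exact (isPresentation_iff S ρ).1 hρ
  · rw [← hρ2, Set.Finite.encard_eq_coe_toFinset_card hfin]

theorem presNum_le {S : AddSubmonoid ℕ}
    (ρ : Finset (Multiset (minGens S) × Multiset (minGens S))) (hρ : Gens (vh S) ρ) :
    presNum S ≤ (ρ.card : ℕ∞) := by
  unfold presNum
  refine iInf_le_of_le (ρ : Set (Multiset (minGens S) × Multiset (minGens S))) ?_
  refine iInf_le_of_le ((isPresentation_iff S _).2 hρ) ?_
  rw [Set.encard_coe_eq_coe_finsetCard]

/-- The lower bound. -/
theorem lower {S : AddSubmonoid ℕ} {P : Finset (Finset ℕ)} (hP : IsBlockPartition S P) :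
    ((embDim S + ∑ A ∈ P, (A.card - 1).choose 2 : ℕ) : ℕ∞) ≤ presNum S + 1 := by
  by_cases h : presNum S = ⊤
  · rw [h]
    exact le_top
  · obtain ⟨ρ, hρ, hc⟩ := exists_finset h
    rw [← hc]
    exact_mod_cast lower_bound hP ρ hρ

theorem inG_of_partition {S : AddSubmonoid ℕ} (hS : IsNumerical S) {P : Finset (Finset ℕ)}
    (hP : IsBlockPartition S P)
    (h : presNum S + 1 = ((embDim S + ∑ A ∈ P, (A.card - 1).choose 2 : ℕ) : ℕ∞)) : InG S := by
  have hne : presNum S ≠ ⊤ := by
    intro ht
    rw [ht] at h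
    exact (ENat.natCast_ne_top _) h.symm
  obtain ⟨ρ, hρ, hc⟩ := exists_finset hne
  rw [← hc] at h
  refine inG_of_eq hP hS ρ hρ ?_
  have : ((ρ.card + 1 : ℕ) : ℕ∞) =
      ((embDim S + ∑ A ∈ P, (A.card - 1).choose 2 : ℕ) : ℕ∞) := by
    rw [← h]
    push_cast
    rfl
  exact (Nat.cast_inj.1 this).le

theorem exists_partition {S : AddSubmonoid ℕ} (h : InG S) : ∃ P, IsBlockPartition S P ∧
    presNum S + 1 = ((embDim S + ∑ A ∈ P, (A.card - 1).choose 2 : ℕ) : ℕ∞) := by
  obtain ⟨hS, P, hP, ρ, hρ, hc⟩ := good_of_inG h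
  refine ⟨P, hP, le_antisymm ?_ (lower hP)⟩
  refine (add_le_add_left (presNum_le ρ hρ) 1).trans ?_
  exact_mod_cast hc

/-- The trivial partition. -/
theorem trivial_partition {S : AddSubmonoid ℕ} (hS : IsNumerical S) :
    ∃ P, IsBlockPartition S P := by
  classical
  have hfin := minGens_finite hS
  refine ⟨hfin.toFinset.image (fun x => {x}), ?_, ?_, ?_⟩
  · intro A hA B hB hne
    obtain ⟨a, _, rfl⟩ := Finset.mem_image.1 (Finset.mem_coe.1 hA)
    obtain ⟨b, _, rfl⟩ := Finset.mem_image.1 (Finset.mem_coe.1 hB)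
    show Disjoint ({a} : Finset ℕ) {b}
    rw [Finset.disjoint_singleton]
    rintro rfl
    exact hne rfl
  · intro x
    constructor
    · intro hx
      exact ⟨{x}, Finset.mem_image.2 ⟨x, (Set.Finite.mem_toFinset hfin).2 hx, rfl⟩,
        Finset.mem_singleton_self x⟩
    · rintro ⟨A, hA, hx⟩
      obtain ⟨a, ha, rfl⟩ := Finset.mem_image.1 hA
      rw [Finset.mem_singleton] at hx
      subst hx
      exact (Set.Finite.mem_toFinset hfin).1 ha
  · intro A hA
    obtain ⟨a, ha, rfl⟩ := Finset.mem_image.1 hA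
    refine ⟨Finset.singleton_nonempty a, ?_⟩
    rw [Finset.min'_singleton, Finset.card_singleton, Finset.gcd_singleton]
    simp

theorem bdd {S : AddSubmonoid ℕ} (hS : IsNumerical S) :
    BddAbove {n | ∃ P, IsBlockPartition S P ∧ n = ∑ A ∈ P, (A.card - 1).choose 2} := by
  classical
  have hfin := minGens_finite hS
  apply Set.Finite.bddAbove
  refine ((hfin.toFinset.powerset.powerset).finite_toSet.image
    (fun P : Finset (Finset ℕ) => ∑ A ∈ P, (A.card - 1).choose 2)).subset ?_
  rintro n ⟨P, hP, rfl⟩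
  refine ⟨P, ?_, rfl⟩
  rw [Finset.mem_coe, Finset.mem_powerset]
  intro A hA
  rw [Finset.mem_powerset]
  intro x hx
  exact (Set.Finite.mem_toFinset hfin).2 ((hP.union x).2 ⟨A, hA, hx⟩)

theorem delta_attained {S : AddSubmonoid ℕ} (hS : IsNumerical S) :
    ∃ P, IsBlockPartition S P ∧ delta S = ∑ A ∈ P, (A.card - 1).choose 2 := by
  obtain ⟨P, hP⟩ := trivial_partition hS
  exact Nat.sSup_mem
    (s := {n | ∃ P, IsBlockPartition S P ∧ n = ∑ A ∈ P, (A.card - 1).choose 2})
    ⟨_, P, hP, rfl⟩ (bdd hS)

/-- **Determination of the gluing closure of the numerical semigroups of maximal embedding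
dimension.**  Every presentation of a numerical semigroup `S` has at least `e(S) - 1 + delta S`
relations, and `S` is in the gluing closure if and only if the least number of relations is equal to
`e(S) - 1 + delta S`. -/
theorem result (S : AddSubmonoid ℕ) (hS : IsNumerical S) :
    ((embDim S + delta S : ℕ) : ℕ∞) ≤ presNum S + 1 ∧
    (InG S ↔ presNum S + 1 = ((embDim S + delta S : ℕ) : ℕ∞)) := by
  obtain ⟨P, hP, hd⟩ := delta_attained hS
  have h1 : ((embDim S + delta S : ℕ) : ℕ∞) ≤ presNum S + 1 := by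
    rw [hd]
    exact lower hP
  refine ⟨h1, fun h => ?_, fun h => ?_⟩
  · obtain ⟨Q, hQ, hq⟩ := exists_partition h
    refine le_antisymm ?_ h1
    rw [hq]
    have h4 : ∑ A ∈ Q, (A.card - 1).choose 2 ≤ delta S := le_csSup (bdd hS) ⟨Q, hQ, rfl⟩
    exact_mod_cast Nat.add_le_add_left h4 _
  · rw [hd] at h
    exact inG_of_partition hS hP h

end Pool.Agent.Results.MP_db6656_al.GluingClosure
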